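import Mathlib
import Pool.Agent.H47.WT.Defs

set_option autoImplicit false

namespace Pool.Agent.H50.WT

open Pool.Agent.H47.WT

variable {H : Type} [Group H] {X Y : Type} [MulAction H X] [MulAction H Y]

/-- the representation on the permutation module -/
noncomputable def rX (H : Type) [Group H] (X : Type) [MulAction H X] :
    Representation ℤ H (X →₀ ℤ) where
  toFun g := Finsupp.lmapDomain ℤ ℤ (fun x => g • x)
  map_one' := by
    ext x
    simp
  map_mul' g h := by
    ext x
    simp [mul_smul]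

theorem rX_apply (g : H) (v : X →₀ ℤ) : rX H X g v = v.mapDomain (fun x => g • x) := rfl

theorem coc_one {f : H → X →₀ ℤ} (hf : Coc f) : f 1 = 0 := by
  have h := hf 1 1
  have h2 : (f 1).mapDomain (fun x => (1 : H) • x) = f 1 := by
    have : (fun x : X => (1 : H) • x) = id := by ext x; simp
    rw [this, Finsupp.mapDomain_id]
  rw [h2, mul_one] at h
  exact left_eq_add.1 h

/-- the extension given by a cocycle -/
noncomputable def rE (f : H → X →₀ ℤ) (hf : Coc f) :
    Representation ℤ H ((X →₀ ℤ) × ℤ) where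
  toFun g :=
    { toFun := fun p => (rX H X g p.1 + p.2 • f g, p.2)
      map_add' := by
        intro p q
        simp only [Prod.fst_add, Prod.snd_add, map_add, add_smul, Prod.mk_add_mk, Prod.mk.injEq,
          and_true]
        abel
      map_smul' := by
        intro n p
        simp [smul_smul] }
  map_one' := by
    apply LinearMap.ext
    rintro ⟨p, n⟩
    simp [coc_one hf]
  map_mul' g h := by
    apply LinearMap.ext
    rintro ⟨p, n⟩
    show (rX H X (g * h) p + n • f (g * h), n) =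
      (rX H X g (rX H X h p + n • f h) + n • f g, n)
    rw [hf g h, ← rX_apply, map_mul, Module.End.mul_apply, map_add, map_smul, smul_add]
    congr 1
    abel

theorem rE_apply (f : H → X →₀ ℤ) (hf : Coc f) (g : H) (p : (X →₀ ℤ) × ℤ) :
    rE f hf g p = (rX H X g p.1 + p.2 • f g, p.2) := rfl

theorem of_smul' {V : Type} [AddCommGroup V] (ρ : Representation ℤ H V) (g : H) (v : ρ.asModule) :
    ρ.asModuleEquiv (MonoidAlgebra.of ℤ H g • v) = ρ g (ρ.asModuleEquiv v) := by
  rw [Representation.asModuleEquiv_map_smul]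
  simp

/-- equivariant additive maps are linear over the group ring -/
noncomputable def mkL {V W : Type} [AddCommGroup V] [AddCommGroup W]
    [Module (MonoidAlgebra ℤ H) V] [Module (MonoidAlgebra ℤ H) W] (F : V →+ W)
    (h : ∀ (g : H) (v : V), F (MonoidAlgebra.of ℤ H g • v) = MonoidAlgebra.of ℤ H g • F v) :
    V →ₗ[MonoidAlgebra ℤ H] W :=
  MonoidAlgebra.equivariantOfLinearOfComm F.toIntLinearMap (fun g v => h g v)

theorem mkL_apply {V W : Type} [AddCommGroup V] [AddCommGroup W]
    [Module (MonoidAlgebra ℤ H) V] [Module (MonoidAlgebra ℤ H) W] (F : V →+ W)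
    (h : ∀ (g : H) (v : V), F (MonoidAlgebra.of ℤ H g • v) = MonoidAlgebra.of ℤ H g • F v) (v : V) :
    mkL F h v = F v := rfl

/-- the map from the group ring to the permutation module of cosets -/
noncomputable def pr (C : Subgroup H) :
    MonoidAlgebra ℤ H →ₗ[MonoidAlgebra ℤ H] (rX H (H ⧸ C)).asModule :=
  LinearMap.toSpanSingleton (MonoidAlgebra ℤ H) _
    ((rX H (H ⧸ C)).asModuleEquiv.symm (Finsupp.single ((1 : H) : H ⧸ C) 1))

theorem pr_eq (C : Subgroup H) (b : H →₀ ℤ) :
    (rX H (H ⧸ C)).asModuleEquiv (pr C ((MonoidAlgebra.coeffLinearEquiv ℤ).symm b)) =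
      b.mapDomain (QuotientGroup.mk : H → H ⧸ C) := by
  induction b using Finsupp.induction_linear with
  | zero => simp
  | add b b' h h' => rw [map_add, map_add, map_add, h, h', Finsupp.mapDomain_add]
  | single g n =>
    have h1 : (MonoidAlgebra.coeffLinearEquiv ℤ).symm (Finsupp.single g n) =
      (MonoidAlgebra.single g n : MonoidAlgebra ℤ H) := rfl
    rw [h1, Finsupp.mapDomain_single]
    unfold pr
    rw [LinearMap.toSpanSingleton_apply, Representation.asModuleEquiv_map_smul,
      Representation.asAlgebraHom_single]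
    simp only [LinearEquiv.apply_symm_apply, LinearMap.smul_apply]
    rw [rX_apply, Finsupp.mapDomain_single]
    simp

theorem pr_surj (C : Subgroup H) : Function.Surjective (pr C) := by
  intro v
  obtain ⟨v, rfl⟩ := (rX H (H ⧸ C)).asModuleEquiv.symm.surjective v
  let b : H →₀ ℤ := v.mapDomain Quotient.out
  refine ⟨(MonoidAlgebra.coeffLinearEquiv ℤ).symm b, ?_⟩
  rw [LinearEquiv.eq_symm_apply, pr_eq]
  show (v.mapDomain Quotient.out).mapDomain _ = v
  rw [← Finsupp.mapDomain_comp]
  have : (QuotientGroup.mk : H → H ⧸ C) ∘ Quotient.out = id := by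
    ext x
    exact Quotient.out_eq x
  rw [this, Finsupp.mapDomain_id]

/-- the quotient map for a smaller subgroup -/
noncomputable def dn {C C' : Subgroup H} (h : C' ≤ C) :
    (rX H (H ⧸ C')).asModule →ₗ[MonoidAlgebra ℤ H] (rX H (H ⧸ C)).asModule :=
  mkL (((rX H (H ⧸ C)).asModuleEquiv.symm.toAddEquiv.toAddMonoidHom.comp
    (Finsupp.mapDomain.addMonoidHom (Subgroup.quotientMapOfLE h))).comp
      (rX H (H ⧸ C')).asModuleEquiv.toAddEquiv.toAddMonoidHom) (by
    intro g v
    show (rX H (H ⧸ C)).asModuleEquiv.symm (Finsupp.mapDomain (Subgroup.quotientMapOfLE h)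
      ((rX H (H ⧸ C')).asModuleEquiv (MonoidAlgebra.of ℤ H g • v))) =
      MonoidAlgebra.of ℤ H g • (rX H (H ⧸ C)).asModuleEquiv.symm
        (Finsupp.mapDomain (Subgroup.quotientMapOfLE h) ((rX H (H ⧸ C')).asModuleEquiv v))
    rw [LinearEquiv.symm_apply_eq, of_smul', of_smul', LinearEquiv.apply_symm_apply, rX_apply,
      rX_apply, ← Finsupp.mapDomain_comp, ← Finsupp.mapDomain_comp]
    congr 1
    ext x
    obtain ⟨x, rfl⟩ := Quotient.exists_rep x
    rfl)

theorem dn_apply {C C' : Subgroup H} (h : C' ≤ C) (v : (rX H (H ⧸ C')).asModule) :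
    (rX H (H ⧸ C)).asModuleEquiv (dn h v) =
      ((rX H (H ⧸ C')).asModuleEquiv v).mapDomain (Subgroup.quotientMapOfLE h) := rfl

theorem dn_pr {C C' : Subgroup H} (h : C' ≤ C) (a : MonoidAlgebra ℤ H) :
    dn h (pr C' a) = pr C a := by
  apply (rX H (H ⧸ C)).asModuleEquiv.injective
  obtain ⟨b, rfl⟩ := (MonoidAlgebra.coeffLinearEquiv ℤ).symm.surjective a
  rw [dn_apply, pr_eq, pr_eq, ← Finsupp.mapDomain_comp]
  rfl

/-- an element of the kernel of `pr C` is in the kernel for a subgroup which contains finitely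
many elements of `C` -/
theorem ker_pr (C : Subgroup H) (a : MonoidAlgebra ℤ H) (ha : pr C a = 0) :
    ∃ S : Finset H, (S : Set H) ⊆ C ∧ ∀ C' : Subgroup H, C' ≤ C → (S : Set H) ⊆ C' →
      pr C' a = 0 := by
  classical
  obtain ⟨b, rfl⟩ := (MonoidAlgebra.coeffLinearEquiv ℤ).symm.surjective a
  refine ⟨((b.support ×ˢ b.support).image fun p => p.1⁻¹ * p.2).filter (· ∈ C), ?_, ?_⟩
  · intro x hx
    exact (Finset.mem_filter.1 (Finset.mem_coe.1 hx)).2
  · intro C' hC' hS
    apply (rX H (H ⧸ C')).asModuleEquiv.injective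
    rw [pr_eq, map_zero]
    have h1 : b.mapDomain (QuotientGroup.mk : H → H ⧸ C) = 0 := by
      rw [← pr_eq, ha, map_zero]
    have h2 : (b.mapDomain (QuotientGroup.mk : H → H ⧸ C')).mapDomain (Subgroup.quotientMapOfLE hC') =
        0 := by
      rw [← Finsupp.mapDomain_comp]
      exact h1
    set T : Set (H ⧸ C') := (QuotientGroup.mk : H → H ⧸ C') '' (b.support : Set H) with hT
    have hinj : Set.InjOn (Subgroup.quotientMapOfLE hC') T := by
      rintro _ ⟨x, hx, rfl⟩ _ ⟨y, hy, rfl⟩ hxy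
      have h3 : ((x : H) : H ⧸ C) = (y : H) := hxy
      rw [QuotientGroup.eq] at h3
      show ((x : H) : H ⧸ C') = (y : H)
      rw [QuotientGroup.eq]
      apply hS
      rw [Finset.mem_coe, Finset.mem_filter]
      exact ⟨Finset.mem_image.2 ⟨(x, y), Finset.mem_product.2 ⟨hx, hy⟩, rfl⟩, h3⟩
    have h4 := Finsupp.mapDomain_injOn (M := ℤ) T hinj
    refine h4 ?_ ?_ (h2.trans Finsupp.mapDomain_zero.symm)
    · intro x hx
      have := Finsupp.mapDomain_support (Finset.mem_coe.1 hx)
      obtain ⟨y, hy, rfl⟩ := Finset.mem_image.1 this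
      exact ⟨y, hy, rfl⟩
    · simp

theorem van_local {P0 P1 P2 : Type} [AddCommGroup P0] [AddCommGroup P1] [AddCommGroup P2]
    [Module (MonoidAlgebra ℤ H) P0] [Module (MonoidAlgebra ℤ H) P1]
    [Module (MonoidAlgebra ℤ H) P2]
    [Module.Projective (MonoidAlgebra ℤ H) P0] [Module.Projective (MonoidAlgebra ℤ H) P1]
    [Module.Finite (MonoidAlgebra ℤ H) P2]
    (d0 : P1 →ₗ[MonoidAlgebra ℤ H] P0) (d1 : P2 →ₗ[MonoidAlgebra ℤ H] P1) (ε : P0 →+ ℤ)
    (hε : ∀ (g : H) (x : P0), ε (MonoidAlgebra.of ℤ H g • x) = ε x)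
    (hs : Function.Surjective ε)
    (h0 : ∀ x : P0, ε x = 0 ↔ x ∈ LinearMap.range d0)
    (h1 : LinearMap.ker d0 = LinearMap.range d1)
    (C : Subgroup H)
    (hC : ∀ S : Finset H, (S : Set H) ⊆ C → ∃ C' : Subgroup H, C' ≤ C ∧ (S : Set H) ⊆ C' ∧
      Van H (H ⧸ C')) : Van H (H ⧸ C) := by
  classical
  intro f hf
  -- the lift to the extension
  let ρT : Representation ℤ H ℤ := Representation.trivial ℤ H ℤ
  let sn : (rE f hf).asModule →ₗ[MonoidAlgebra ℤ H] ρT.asModule :=
    mkL ((ρT.asModuleEquiv.symm.toAddEquiv.toAddMonoidHom.comp (AddMonoidHom.snd _ _)).comp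
      (rE f hf).asModuleEquiv.toAddEquiv.toAddMonoidHom) (by
      intro g v
      show ρT.asModuleEquiv.symm ((rE f hf).asModuleEquiv (MonoidAlgebra.of ℤ H g • v)).2 =
        MonoidAlgebra.of ℤ H g • ρT.asModuleEquiv.symm ((rE f hf).asModuleEquiv v).2
      rw [LinearEquiv.symm_apply_eq, of_smul', of_smul', LinearEquiv.apply_symm_apply, rE_apply]
      rfl)
  let εT : P0 →ₗ[MonoidAlgebra ℤ H] ρT.asModule :=
    mkL (ρT.asModuleEquiv.symm.toAddEquiv.toAddMonoidHom.comp ε) (by
      intro g v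
      show ρT.asModuleEquiv.symm (ε (MonoidAlgebra.of ℤ H g • v)) =
        MonoidAlgebra.of ℤ H g • ρT.asModuleEquiv.symm (ε v)
      rw [LinearEquiv.symm_apply_eq, of_smul', LinearEquiv.apply_symm_apply, hε]
      rfl)
  have hsn : Function.Surjective sn := by
    intro n
    refine ⟨(rE f hf).asModuleEquiv.symm (0, ρT.asModuleEquiv n), ?_⟩
    show ρT.asModuleEquiv.symm ((rE f hf).asModuleEquiv
      ((rE f hf).asModuleEquiv.symm (0, ρT.asModuleEquiv n))).2 = n
    rw [LinearEquiv.apply_symm_apply, LinearEquiv.symm_apply_eq]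
  obtain ⟨Λ, hΛ⟩ := Module.projective_lifting_property sn εT hsn
  set L : P0 → ((H ⧸ C) →₀ ℤ) := fun x => ((rE f hf).asModuleEquiv (Λ x)).1 with hL
  have hL2 : ∀ x, ((rE f hf).asModuleEquiv (Λ x)).2 = ε x := by
    intro x
    have := LinearMap.congr_fun hΛ x
    exact this
  have hLadd : ∀ x y, L (x + y) = L x + L y := by
    intro x y
    simp only [hL, map_add, Prod.fst_add]
  have hLof : ∀ (g : H) x, L (MonoidAlgebra.of ℤ H g • x) = rX H _ g (L x) + ε x • f g := by
    intro g x
    simp only [hL, map_smul]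
    rw [of_smul', rE_apply, hL2]
  -- the map on `P1`
  let φ : P1 →ₗ[MonoidAlgebra ℤ H] (rX H (H ⧸ C)).asModule :=
    mkL { toFun := fun y => (rX H (H ⧸ C)).asModuleEquiv.symm (L (d0 y))
          map_zero' := by
            have : L 0 = 0 := by
              have := hLadd 0 0
              rw [add_zero] at this
              exact left_eq_add.1 this
            rw [map_zero, this, map_zero]
          map_add' := by
            intro x y
            rw [map_add, hLadd, map_add] } (by
      intro g y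
      show (rX H (H ⧸ C)).asModuleEquiv.symm (L (d0 (MonoidAlgebra.of ℤ H g • y))) =
        MonoidAlgebra.of ℤ H g • (rX H (H ⧸ C)).asModuleEquiv.symm (L (d0 y))
      rw [LinearEquiv.symm_apply_eq, of_smul', LinearEquiv.apply_symm_apply, map_smul, hLof,
        (h0 (d0 y)).2 ⟨y, rfl⟩, zero_smul, add_zero])
  have hφ : ∀ y, φ y = (rX H (H ⧸ C)).asModuleEquiv.symm (L (d0 y)) := fun _ => rfl
  obtain ⟨lam, hlam⟩ := Module.projective_lifting_property (pr C) φ (pr_surj C)
  have hlam' : ∀ y, pr C (lam y) = φ y := fun y => LinearMap.congr_fun hlam y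
  -- the finite set
  obtain ⟨T, hT⟩ := (Module.Finite.fg_top : (⊤ : Submodule (MonoidAlgebra ℤ H) P2).FG)
  have hker : ∀ z : P2, pr C (lam (d1 z)) = 0 := by
    intro z
    have h2 : d0 (d1 z) = 0 := by
      have : d1 z ∈ LinearMap.ker d0 := by rw [h1]; exact ⟨z, rfl⟩
      exact this
    have h3 : L 0 = 0 := by
      have := hLadd 0 0
      rw [add_zero] at this
      exact left_eq_add.1 this
    rw [hlam', hφ, h2, h3, map_zero]
  choose S hS1 hS2 using fun z : P2 => ker_pr C (lam (d1 z)) (hker z)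
  obtain ⟨C', hC'1, hC'2, hC'3⟩ := hC (T.biUnion S) (by
    intro x hx
    obtain ⟨z, -, hz⟩ := Finset.mem_biUnion.1 (Finset.mem_coe.1 hx)
    exact hS1 z hz)
  have hvan : ∀ z : P2, pr C' (lam (d1 z)) = 0 := by
    have h2 : (pr C').comp (lam.comp d1) = 0 := by
      refine LinearMap.ext_on_range (v := fun z : T => (z : P2)) ?_ ?_
      · rw [Subtype.range_coe_subtype]
        exact hT
      · rintro ⟨z, hz⟩
        exact hS2 z C' hC'1 fun x hx => hC'2 (Finset.mem_coe.2 (Finset.mem_biUnion.2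
          ⟨z, hz, hx⟩))
    intro z
    exact LinearMap.congr_fun h2 z
  have hvan' : ∀ y : P1, d0 y = 0 → pr C' (lam y) = 0 := by
    intro y hy
    have : y ∈ LinearMap.range d1 := by
      rw [← h1]
      exact hy
    obtain ⟨z, rfl⟩ := this
    exact hvan z
  -- the new cocycle
  obtain ⟨x0, hx0⟩ := hs 1
  have hy : ∀ g : H, ∃ y, d0 y = MonoidAlgebra.of ℤ H g • x0 - x0 := by
    intro g
    have : ε (MonoidAlgebra.of ℤ H g • x0 - x0) = 0 := by rw [map_sub, hε, sub_self]
    exact (h0 _).1 this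
  choose y hy using hy
  set f' : H → (H ⧸ C') →₀ ℤ := fun g => (rX H (H ⧸ C')).asModuleEquiv (pr C' (lam (y g)))
    with hf'
  have hcoc : Coc f' := by
    intro g h
    have h2 : d0 (y (g * h) - y g - MonoidAlgebra.of ℤ H g • y h) = 0 := by
      rw [map_sub, map_sub, map_smul, hy, hy, hy, smul_sub, smul_smul, ← map_mul]
      abel
    have h3 := hvan' _ h2
    rw [map_sub, map_sub, map_sub, map_sub, map_smul, map_smul, sub_sub, sub_eq_zero] at h3
    show (rX H (H ⧸ C')).asModuleEquiv (pr C' (lam (y (g * h)))) = _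
    rw [h3, map_add, of_smul']
    rfl
  obtain ⟨m', hm'⟩ := hC'3 f' hcoc
  refine ⟨m'.mapDomain (Subgroup.quotientMapOfLE hC'1) - L x0, fun g => ?_⟩
  have h2 : (f' g).mapDomain (Subgroup.quotientMapOfLE hC'1) = L (d0 (y g)) := by
    rw [hf', ← dn_apply hC'1, dn_pr, hlam', hφ, LinearEquiv.apply_symm_apply]
  have h3 : L (d0 (y g)) = rX H _ g (L x0) + f g - L x0 := by
    rw [hy, sub_eq_add_neg, hLadd, hLof, hx0, one_smul]
    have : L (-x0) = - L x0 := by
      rw [eq_neg_iff_add_eq_zero, ← hLadd, neg_add_cancel]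
      have := hLadd 0 0
      rw [add_zero] at this
      exact left_eq_add.1 this
    rw [this, sub_eq_add_neg]
  have h4 : (f' g).mapDomain (Subgroup.quotientMapOfLE hC'1) =
      rX H _ g (m'.mapDomain (Subgroup.quotientMapOfLE hC'1)) -
        m'.mapDomain (Subgroup.quotientMapOfLE hC'1) := by
    rw [hm' g, sub_eq_add_neg, Finsupp.mapDomain_add, sub_eq_add_neg]
    congr 1
    · rw [rX_apply, ← Finsupp.mapDomain_comp, ← Finsupp.mapDomain_comp]
      congr 1
      ext x
      obtain ⟨x, rfl⟩ := Quotient.exists_rep x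
      rfl
    · exact map_neg (Finsupp.mapDomain.addMonoidHom (Subgroup.quotientMapOfLE hC'1)) m'
  rw [← rX_apply, map_sub]
  have h5 := h2.symm.trans h4
  rw [h3] at h5
  rw [sub_eq_iff_eq_add] at h5
  have h6 : f g = rX H _ g (m'.mapDomain (Subgroup.quotientMapOfLE hC'1)) -
        m'.mapDomain (Subgroup.quotientMapOfLE hC'1) + L x0 - rX H _ g (L x0) := by
    rw [← h5]
    abel
  rw [h6]
  abel

end Pool.Agent.H50.WT
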